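import Pool.Agent.H221R3.MD.StmtsP

/-!
Project MD (helper221), TaskP1: the deltoid inequality. The expression is the square of the absolute
value of the product of the differences of the three unit complex numbers.
-/

set_option autoImplicit false

namespace Pool.Agent.H421R3.MD

open Pool.Agent.H221R3.MD

theorem p1_conj {u : ℂ} (h : ‖u‖ = 1) : (starRingEnd ℂ) u = u⁻¹ := by
  have h2 : u * (starRingEnd ℂ) u = 1 := by
    rw [Complex.mul_conj, Complex.normSq_eq_norm_sq, h]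
    norm_num
  exact eq_inv_of_mul_eq_one_right h2

theorem p1_sq (z : ℂ) : ((‖z‖ : ℝ) : ℂ) ^ 2 = z * (starRingEnd ℂ) z := by
  rw [Complex.mul_conj, Complex.normSq_eq_norm_sq]
  push_cast
  ring

theorem p1_key (u1 u2 u3 : ℂ) (h1 : ‖u1‖ = 1) (h2 : ‖u2‖ = 1) (h3 : ‖u3‖ = 1) :
    27 - 18 * ‖u1 + u2 + u3‖ ^ 2
      + 8 * ((u1 + u2 + u3) ^ 3 * (starRingEnd ℂ) (u1 * u2 * u3)).re - ‖u1 + u2 + u3‖ ^ 4 =
    ‖(u1 - u2) * (u2 - u3) * (u3 - u1)‖ ^ 2 := by
  have e1 : u1 ≠ 0 := by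
    intro h
    rw [h, norm_zero] at h1
    exact zero_ne_one h1
  have e2 : u2 ≠ 0 := by
    intro h
    rw [h, norm_zero] at h2
    exact zero_ne_one h2
  have e3 : u3 ≠ 0 := by
    intro h
    rw [h, norm_zero] at h3
    exact zero_ne_one h3
  apply Complex.ofReal_injective
  push_cast
  have h4 : ((‖u1 + u2 + u3‖ : ℝ) : ℂ) ^ 4 = (((‖u1 + u2 + u3‖ : ℝ) : ℂ) ^ 2) ^ 2 := by ring
  rw [h4, p1_sq, p1_sq, Complex.re_eq_add_conj]
  simp only [map_mul, map_add, map_sub, map_pow, Complex.conj_conj, p1_conj h1, p1_conj h2,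
    p1_conj h3, map_inv₀]
  field_simp
  ring

theorem taskP1 : TaskP1 := by
  intro u1 u2 u3 h1 h2 h3
  rw [p1_key u1 u2 u3 h1 h2 h3]
  positivity

end Pool.Agent.H421R3.MD
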